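import Pool.Agent.helper24.TG.S3
import Pool.Agent.helper24.TG.Geo

set_option linter.all false
set_option autoImplicit false

/-!
# QN: the good points of a neighbourhood (MP_ce98d8_co)
-/

namespace Pool.Agent.helper24.TG

open Finset Classical

section

variable {P O A : Type} [Fintype P] [DecidableEq P] [Fintype O] [DecidableEq O]
  [Fintype A] [DecidableEq A] [AddCommGroup A]

theorem QN_bad1 {q : ℕ} (H : Host P O q) (v : O → A) (z : P × A) (i : Bool)
    (A1 : Finset (P × A)) :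
    ((Nb H v i z ∩ XA A H).filter (fun u => ∃ y ∈ A1, y.1 = u.1)).card ≤ A1.card := by
  classical
  have h1 : ((Nb H v i z ∩ XA A H).filter (fun u => ∃ y ∈ A1, y.1 = u.1)).card =
      (((Nb H v i z ∩ XA A H).filter (fun u => ∃ y ∈ A1, y.1 = u.1)).image Prod.fst).card := by
    refine (Finset.card_image_of_injOn ?_).symm
    intro x hx y hy hxy
    simp only [Finset.coe_filter, Finset.mem_inter, mem_Nb, Set.mem_setOf_eq] at hx hy
    exact onL_inj hx.1.1 hy.1.1 hxy
  rw [h1]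
  refine le_trans (Finset.card_le_card ?_) (Finset.card_image_le (s := A1) (f := Prod.fst))
  intro t ht
  simp only [Finset.mem_image, Finset.mem_filter] at ht ⊢
  obtain ⟨u, ⟨_, y, hy, hyu⟩, rfl⟩ := ht
  exact ⟨y, hy, hyu⟩

theorem QN_sum (p : Par) (H : Host P O p.q) (v : O → A) (h3 : H3 p H v) (z : P × A) (i : Bool)
    (A1 : Finset (P × A)) (hd : Disjoint A1 (Nb H v i z)) :
    p.c ^ 6 * ∑ u ∈ Nb H v i z ∩ XA A H, (A1 ∩ Gam H v u).card ≤ p.q * A1.card := by
  classical
  have hsw : ∑ u ∈ Nb H v i z ∩ XA A H, (A1 ∩ Gam H v u).card =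
      ∑ y ∈ A1, ((Nb H v i z ∩ XA A H).filter (fun u => col H v u y)).card := by
    have h1 : ∀ u ∈ Nb H v i z ∩ XA A H, (A1 ∩ Gam H v u).card =
        ∑ y ∈ A1, if col H v u y then 1 else 0 := by
      intro u _
      rw [← Finset.sum_filter, ← Finset.card_eq_sum_ones]
      congr 1
      ext y
      simp
    rw [Finset.sum_congr rfl h1, Finset.sum_comm]
    refine Finset.sum_congr rfl (fun y _ => ?_)
    rw [← Finset.sum_filter, ← Finset.card_eq_sum_ones]
  rw [hsw, Finset.mul_sum]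
  have h2 : ∀ y ∈ A1, p.c ^ 6 *
      ((Nb H v i z ∩ XA A H).filter (fun u => col H v u y)).card ≤ p.q := by
    intro y hy
    have hny : ¬ onL H v (NL H i z) y := by
      intro h
      exact (Finset.disjoint_left.mp hd hy) (mem_Nb.mpr h)
    refine le_trans (Nat.mul_le_mul_left _ (Finset.card_le_card ?_)) (h3 (NL H i z) y hny)
    intro u hu
    simp only [Finset.mem_filter, Finset.mem_inter, mem_Nb, mem_lin, mem_Gam] at hu ⊢
    exact ⟨hu.1.1, col_symm hu.2⟩
  calc ∑ y ∈ A1, p.c ^ 6 * ((Nb H v i z ∩ XA A H).filter (fun u => col H v u y)).card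
      ≤ ∑ y ∈ A1, p.q := Finset.sum_le_sum h2
    _ = p.q * A1.card := by simp [mul_comm]

theorem QN_bad2 (p : Par) (H : Host P O p.q) (v : O → A) (h3 : H3 p H v) (z : P × A) (i : Bool)
    (A1 : Finset (P × A)) (hd : Disjoint A1 (Nb H v i z)) :
    p.c ^ 6 * ((Nb H v i z ∩ XA A H).filter
      (fun u => 2 * (A1 \ Gam H v u).card < A1.card)).card ≤ 2 * p.q := by
  classical
  set Bd := (Nb H v i z ∩ XA A H).filter (fun u => 2 * (A1 \ Gam H v u).card < A1.card) with hBd
  rcases Nat.eq_zero_or_pos A1.card with h0 | h0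
  · have : Bd = ∅ := by
      rw [hBd, Finset.filter_eq_empty_iff]
      intro u _
      omega
    rw [this]
    simp
  · have h1 : A1.card * Bd.card ≤ 2 * ∑ u ∈ Nb H v i z ∩ XA A H, (A1 ∩ Gam H v u).card := by
      have h2 : ∑ u ∈ Bd, (A1 ∩ Gam H v u).card ≤
          ∑ u ∈ Nb H v i z ∩ XA A H, (A1 ∩ Gam H v u).card :=
        Finset.sum_le_sum_of_subset (Finset.filter_subset _ _)
      have h3' : ∑ u ∈ Bd, A1.card ≤ ∑ u ∈ Bd, 2 * (A1 ∩ Gam H v u).card := by
        refine Finset.sum_le_sum (fun u hu => ?_)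
        have hu' : 2 * (A1 \ Gam H v u).card < A1.card := (Finset.mem_filter.mp hu).2
        have := Finset.card_sdiff_add_card_inter A1 (Gam H v u)
        omega
      rw [← Finset.mul_sum] at h3'
      simp only [Finset.sum_const, smul_eq_mul] at h3'
      calc A1.card * Bd.card = Bd.card * A1.card := mul_comm _ _
        _ ≤ 2 * ∑ u ∈ Bd, (A1 ∩ Gam H v u).card := h3'
        _ ≤ _ := Nat.mul_le_mul_left _ h2
    have h4 := QN_sum p H v h3 z i A1 hd
    have h5 : A1.card * (p.c ^ 6 * Bd.card) ≤ A1.card * (2 * p.q) := by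
      calc A1.card * (p.c ^ 6 * Bd.card) = p.c ^ 6 * (A1.card * Bd.card) := by ring
        _ ≤ p.c ^ 6 * (2 * ∑ u ∈ Nb H v i z ∩ XA A H, (A1 ∩ Gam H v u).card) :=
          Nat.mul_le_mul_left _ h1
        _ = 2 * (p.c ^ 6 * ∑ u ∈ Nb H v i z ∩ XA A H, (A1 ∩ Gam H v u).card) := by ring
        _ ≤ 2 * (p.q * A1.card) := Nat.mul_le_mul_left _ h4
        _ = A1.card * (2 * p.q) := by ring
    exact Nat.le_of_mul_le_mul_left h5 h0

end

theorem QN : QN_stmt := by
  intro p P O A _ _ _ _ _ _ _ H v hA h3 z i A1 hz hA1 hd hc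
  have hc16 : 16 ≤ p.c := by
    have h1 := p.hLog
    have h2 := p.hLam
    have : 10 ^ 6 * 1 ≤ 10 ^ 6 * p.Lam := Nat.mul_le_mul_left _ h2
    omega
  have hb1 := QN_bad1 H v z i A1
  have hb2 := QN_bad2 p H v h3 z i A1 hd
  have hq := card_Nb_XA H v (hz i)
  set G := (Nb H v i z ∩ XA A H).filter (fun u => (∀ y ∈ A1, y.1 ≠ u.1) ∧
    A1.card ≤ 2 * (A1 \ Gam H v u).card) with hG
  set B1 := (Nb H v i z ∩ XA A H).filter (fun u => ∃ y ∈ A1, y.1 = u.1) with hB1
  set B2 := (Nb H v i z ∩ XA A H).filter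
    (fun u => 2 * (A1 \ Gam H v u).card < A1.card) with hB2
  have hsub : Nb H v i z ∩ XA A H ⊆ G ∪ (B1 ∪ B2) := by
    intro u hu
    by_cases h1 : ∃ y ∈ A1, y.1 = u.1
    · exact Finset.mem_union_right _ (Finset.mem_union_left _ (Finset.mem_filter.mpr ⟨hu, h1⟩))
    · by_cases h2 : 2 * (A1 \ Gam H v u).card < A1.card
      · exact Finset.mem_union_right _ (Finset.mem_union_right _ (Finset.mem_filter.mpr ⟨hu, h2⟩))
      · refine Finset.mem_union_left _ (Finset.mem_filter.mpr ⟨hu, ?_, by omega⟩)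
        intro y hy hyu
        exact h1 ⟨y, hy, hyu⟩
  have hcard : p.q ≤ G.card + (B1.card + B2.card) := by
    calc p.q = (Nb H v i z ∩ XA A H).card := hq.symm
      _ ≤ (G ∪ (B1 ∪ B2)).card := Finset.card_le_card hsub
      _ ≤ G.card + (B1 ∪ B2).card := Finset.card_union_le _ _
      _ ≤ G.card + (B1.card + B2.card) := Nat.add_le_add_left (Finset.card_union_le _ _) _
  have h4 : 8 * A1.card ≤ p.q := by
    refine le_trans (Nat.mul_le_mul_right _ ?_) hc
    calc 8 ≤ 16 ^ 4 := by norm_num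
      _ ≤ p.c ^ 4 := Nat.pow_le_pow_left hc16 4
  have h5 : 16 * B2.card ≤ 2 * p.q := by
    refine le_trans (Nat.mul_le_mul_right _ ?_) hb2
    calc 16 ≤ 16 ^ 6 := by norm_num
      _ ≤ p.c ^ 6 := Nat.pow_le_pow_left hc16 6
  omega

end Pool.Agent.helper24.TG
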